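import Pool.Agent.Helper73.SM.GoalsK
import Pool.Agent.Helper56.PNT

/-!
# Project KR (MP_c307ca_nt), packet KPN
-/

set_option autoImplicit false

namespace Pool.Agent.Helper54.SM

open Finset Filter Topology

theorem theta_sub (m n : ℕ) (h : m ≤ n) :
    Chebyshev.theta n - Chebyshev.theta m = ∑ p ∈ (Ioc m n).filter Nat.Prime, Real.log p := by
  unfold Chebyshev.theta
  rw [Nat.floor_natCast, Nat.floor_natCast, sub_eq_iff_eq_add, add_comm]
  rw [Finset.sum_filter, Finset.sum_filter, Finset.sum_filter,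
    ← Finset.sum_Ioc_consecutive _ (Nat.zero_le m) h]

/-- two-sided bound for theta at integers. -/
theorem theta_bd (δ : ℝ) (hδ : 0 < δ) : ∃ n₁ : ℕ, ∀ m : ℕ, n₁ ≤ m →
    (1 - δ) * m ≤ Chebyshev.theta m ∧ Chebyshev.theta m ≤ (1 + δ) * m := by
  have h := Helper56.theta_div_tendsto.comp (tendsto_natCast_atTop_atTop (R := ℝ))
  have h1 := h.eventually (Icc_mem_nhds (show (1 - δ : ℝ) < 1 by linarith)
    (show (1 : ℝ) < 1 + δ by linarith))
  obtain ⟨n₁, hn⟩ := eventually_atTop.1 h1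
  refine ⟨max n₁ 1, fun m hm => ?_⟩
  have h2 := hn m (le_trans (le_max_left _ _) hm)
  have hm0 : (0 : ℝ) < m := by exact_mod_cast lt_of_lt_of_le one_pos (le_trans (le_max_right _ _) hm)
  obtain ⟨h3, h4⟩ := h2
  simp only [Function.comp_apply] at h3 h4
  rw [le_div_iff₀ hm0] at h3
  rw [div_le_iff₀ hm0] at h4
  exact ⟨h3, h4⟩

theorem kpn_lo (k : ℕ) (hk : 3 ≤ k) : ∃ n₀ : ℕ, ∀ n : ℕ, n₀ ≤ n →
    (n : ℝ) / (2 * k) ≤ ∑ p ∈ (Ioc (2 * n) (2 * n + n / k)).filter Nat.Prime, Real.log p := by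
  have hk0 : (0 : ℝ) < k := by positivity
  obtain ⟨n₁, h1⟩ := theta_bd (1 / (16 * k)) (by positivity)
  refine ⟨max n₁ (6 * k), fun n hn => ?_⟩
  have hn1 : n₁ ≤ n := le_trans (le_max_left _ _) hn
  have hn2 : 6 * k ≤ n := le_trans (le_max_right _ _) hn
  have hn2' : (6 : ℝ) * k ≤ n := by exact_mod_cast hn2
  rw [← theta_sub (2 * n) (2 * n + n / k) (Nat.le_add_right _ _)]
  obtain ⟨h2, -⟩ := h1 (2 * n + n / k)
    ((hn1.trans (by omega : n ≤ 2 * n)).trans (Nat.le_add_right _ _))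
  obtain ⟨-, h3⟩ := h1 (2 * n) (hn1.trans (by omega : n ≤ 2 * n))
  have h4 : (n : ℝ) / k - 1 ≤ ((n / k : ℕ) : ℝ) := by
    have := Nat.lt_div_mul_add (a := n) (b := k) (by omega)
    have h5 : (n : ℝ) < ((n / k : ℕ) : ℝ) * k + k := by exact_mod_cast this
    rw [sub_le_iff_le_add, div_le_iff₀ hk0]
    linarith
  have h5 : ((n / k : ℕ) : ℝ) ≤ n := by exact_mod_cast Nat.div_le_self n k
  have h6 : (1 : ℝ) / (16 * k) * ((4 * n + (n / k : ℕ) : ℝ)) ≤ 5 / 16 * (n / k) := by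
    have : (4 * n + (n / k : ℕ) : ℝ) ≤ 5 * n := by linarith
    calc (1 : ℝ) / (16 * k) * ((4 * n + (n / k : ℕ) : ℝ)) ≤ 1 / (16 * k) * (5 * n) := by gcongr
      _ = 5 / 16 * (n / k) := by field_simp
  have h7 : (6 : ℝ) ≤ n / k := by
    rw [le_div_iff₀ hk0]
    exact hn2'
  have h8 : (n : ℝ) / (2 * k) = (1 / 2) * (n / k) := by
    field_simp
  rw [h8]
  push_cast at h2 h3 ⊢
  nlinarith

theorem kpn_hi (k : ℕ) (ε : ℝ) (hk : 1 ≤ k) (hε : 0 < ε) : ∃ B n₀ : ℕ, 1 ≤ B ∧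
    ∀ n : ℕ, n₀ ≤ n →
    ((Nat.primeCounting (n / B) : ℝ) + 2) * Real.log (2 * k * (k * n + k) ^ 2) ≤ ε * n := by
  have hk0 : (1 : ℝ) ≤ k := by exact_mod_cast hk
  obtain ⟨B, hB1, hB⟩ : ∃ B : ℕ, 1 ≤ B ∧ 36 / ε ≤ B :=
    ⟨⌈36 / ε⌉₊ + 1, by omega, (Nat.le_ceil _).trans (by push_cast; linarith)⟩
  have hB0 : (1 : ℝ) ≤ B := by exact_mod_cast hB1
  obtain ⟨x₀, hx₀⟩ := eventually_atTop.1 (Chebyshev.eventually_primeCounting_le one_pos)
  have hlog := (Real.isLittleO_log_id_atTop.def (show (0 : ℝ) < ε / 12 by positivity))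
  obtain ⟨x₁, hx₁⟩ := eventually_atTop.1 hlog
  obtain ⟨n₀, hn₀⟩ : ∃ n₀ : ℕ, ∀ n : ℕ, n₀ ≤ n → x₁ ≤ n ∧ (B : ℝ) * (x₀ + 1) ≤ n ∧
      8 * (k : ℝ) ^ 3 ≤ n ∧ (2 * B : ℝ) ^ 2 ≤ n ∧ 4 ≤ (n : ℝ) := by
    obtain ⟨N, hN⟩ := exists_nat_ge (max (max x₁ ((B : ℝ) * (x₀ + 1)))
      (max (8 * (k : ℝ) ^ 3) (max ((2 * B : ℝ) ^ 2) 4)))
    refine ⟨N, fun n hn => ?_⟩
    have h1 : (N : ℝ) ≤ n := by exact_mod_cast hn
    have h2 := hN.trans h1
    simp only [max_le_iff] at h2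
    obtain ⟨⟨h3, h4⟩, h5, h6, h7⟩ := h2
    exact ⟨h3, h4, h5, h6, h7⟩
  refine ⟨B, n₀, hB1, fun n hn => ?_⟩
  obtain ⟨h1, h2, h3, h4, h5⟩ := hn₀ n hn
  have hn0 : (0 : ℝ) < n := by linarith
  have hlogn : 0 < Real.log n := Real.log_pos (by linarith)
  -- the number `y`
  set y := n / B with hy
  have hy1 : (n : ℝ) / B - 1 ≤ (y : ℝ) := by
    have := Nat.lt_div_mul_add (a := n) (b := B) (by omega)
    have h5 : (n : ℝ) < ((n / B : ℕ) : ℝ) * B + B := by exact_mod_cast this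
    rw [sub_le_iff_le_add, div_le_iff₀ (by linarith)]
    rw [hy]
    linarith
  have hy2 : (y : ℝ) ≤ n / B := by
    rw [le_div_iff₀ (by linarith)]
    exact_mod_cast Nat.div_mul_le_self n B
  have hy3 : x₀ ≤ (y : ℝ) := by
    refine le_trans ?_ hy1
    rw [le_sub_iff_add_le, le_div_iff₀ (by linarith)]
    linarith
  have hsq : Real.sqrt n ≤ (y : ℝ) := by
    refine le_trans ?_ hy1
    rw [le_sub_iff_add_le, le_div_iff₀ (by linarith)]
    have h6 : 2 * (B : ℝ) ≤ Real.sqrt n := Real.le_sqrt_of_sq_le h4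
    have h7 : Real.sqrt n * Real.sqrt n = n := Real.mul_self_sqrt hn0.le
    have h8 : 1 ≤ Real.sqrt n := by linarith
    nlinarith
  have hsq0 : 0 < Real.sqrt n := Real.sqrt_pos.2 hn0
  have hly : Real.log n / 2 ≤ Real.log y := by
    rw [← Real.log_sqrt hn0.le]
    exact Real.log_le_log hsq0 hsq
  have hpi : (Nat.primeCounting y : ℝ) ≤ 6 * n / (B * Real.log n) := by
    have h6 := hx₀ y hy3
    rw [Nat.floor_natCast] at h6
    refine h6.trans ?_
    have h7 : Real.log 4 + 1 ≤ 3 := by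
      have h9 : Real.log 4 ≤ 2 := by
        rw [show (4 : ℝ) = 2 ^ 2 by norm_num, Real.log_pow]
        have := Real.log_two_lt_d9
        push_cast
        linarith
      linarith
    have hly0 : 0 < Real.log y := by linarith
    rw [div_le_div_iff₀ hly0 (by positivity)]
    have hy0 : (0 : ℝ) ≤ y := Nat.cast_nonneg _
    have hyB : (y : ℝ) * B ≤ n := by
      rw [le_div_iff₀ (by linarith)] at hy2
      exact hy2
    calc (Real.log 4 + 1) * y * (B * Real.log n) ≤ 3 * y * (B * Real.log n) := by gcongr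
      _ = 3 * (y * B) * Real.log n := by ring
      _ ≤ 3 * n * Real.log n := by gcongr
      _ = 6 * n * (Real.log n / 2) := by ring
      _ ≤ 6 * n * Real.log y := by gcongr
  have hL0 : 0 ≤ Real.log (2 * k * (k * n + k) ^ 2) := by
    apply Real.log_nonneg
    have h7 : (1 : ℝ) ≤ k * n + k := by nlinarith
    have h8 : (1 : ℝ) ≤ (k * n + k) ^ 2 := one_le_pow₀ h7
    nlinarith
  have hL : Real.log (2 * k * (k * n + k) ^ 2) ≤ 3 * Real.log n := by
    rw [show (3 : ℝ) * Real.log n = Real.log ((n : ℝ) ^ 3) by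
      rw [Real.log_pow]
      push_cast
      ring]
    refine Real.log_le_log (by positivity) ?_
    have h6 : (k : ℝ) * n + k ≤ 2 * (k * n) := by nlinarith
    calc 2 * (k : ℝ) * (k * n + k) ^ 2 ≤ 2 * (k : ℝ) * (2 * (k * n)) ^ 2 := by gcongr
      _ = 8 * (k : ℝ) ^ 3 * (n : ℝ) ^ 2 := by ring
      _ ≤ n * (n : ℝ) ^ 2 := by gcongr
      _ = (n : ℝ) ^ 3 := by ring
  have hlg : Real.log n ≤ ε / 12 * n := by
    have := hx₁ n h1
    rw [Real.norm_of_nonneg hlogn.le] at this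
    simpa [abs_of_pos hn0] using this
  have hBe : 18 / (B : ℝ) ≤ ε / 2 := by
    rw [div_le_div_iff₀ (by linarith) two_pos]
    rw [div_le_iff₀ hε] at hB
    linarith
  calc ((Nat.primeCounting y : ℝ) + 2) * Real.log (2 * k * (k * n + k) ^ 2)
      ≤ (6 * n / (B * Real.log n) + 2) * (3 * Real.log n) :=
        mul_le_mul (by linarith) hL hL0 (by positivity)
    _ = 18 / B * n + 6 * Real.log n := by
        field_simp
        ring
    _ ≤ ε / 2 * n + 6 * (ε / 12 * n) := by gcongr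
    _ = ε * n := by ring

theorem goalKPN : Pool.Agent.Helper73.SM.StmtKPN := ⟨kpn_lo, kpn_hi⟩

end Pool.Agent.Helper54.SM
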